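import Mathlib

namespace Pool.Agent.Results.MP_662df3_gt.Counter

open MeasureTheory Set Filter Topology Real
open scoped ENNReal

/-- The boundary measure `liminf_{r → 0+} (μ(A_r) - μ(A)) / r`, with `A_r` the open
`r`-neighbourhood of `A`. -/
noncomputable def bdry {X : Type} [PseudoMetricSpace X] [MeasurableSpace X] (μ : Measure X)
    (A : Set X) : ℝ≥0∞ :=
  liminf (fun r : ℝ => (μ (Metric.thickening r A) - μ A) / ENNReal.ofReal r) (𝓝[>] 0)

/-- The isoperimetric profile: the infimum of the boundary measures of Borel sets of measure `a`. -/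
noncomputable def profile {X : Type} [PseudoMetricSpace X] [MeasurableSpace X] (μ : Measure X)
    (a : ℝ) : ℝ≥0∞ :=
  ⨅ (A : Set X) (_ : MeasurableSet A) (_ : μ A = ENNReal.ofReal a), bdry μ A

/-- The ratio `R(a) = I(a) / a`. -/
noncomputable def ratio {X : Type} [PseudoMetricSpace X] [MeasurableSpace X] (μ : Measure X)
    (a : ℝ) : ℝ≥0∞ := profile μ a / ENNReal.ofReal a

/-- A symmetric log-concave probability law on the line (here with a finite convex potential). -/
def SymLogConcave (μ : Measure ℝ) : Prop :=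
  IsProbabilityMeasure μ ∧
    (∃ V : ℝ → ℝ, ConvexOn ℝ univ V ∧
      μ = volume.withDensity fun x => ENNReal.ofReal (exp (-V x))) ∧
    ∀ A : Set ℝ, MeasurableSet A → μ (-A) = μ A

/-- The product measure on the Euclidean plane (`ℝ × ℝ` with the `L²` metric). -/
noncomputable def prodE (μ ν : Measure ℝ) : Measure (WithLp 2 (ℝ × ℝ)) :=
  (μ.prod ν).map (WithLp.toLp 2)

/-- Density of the two-sided exponential law. -/
noncomputable def rho (x : ℝ) : ℝ≥0∞ := ENNReal.ofReal (exp (-(|x| + log 2)))

/-- The two-sided exponential law. -/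
noncomputable def lap : Measure ℝ := volume.withDensity rho

theorem lap_apply {A : Set ℝ} (hA : MeasurableSet A) : lap A = ∫⁻ x, A.indicator rho x := by
  rw [lap, withDensity_apply _ hA, lintegral_indicator hA]

theorem lap_neg {A : Set ℝ} (hA : MeasurableSet A) : lap (-A) = lap A := by
  rw [lap_apply hA, lap_apply hA.neg, ← lintegral_neg_eq_self]
  congr 1
  funext x
  by_cases h : x ∈ A
  · rw [indicator_of_mem h, indicator_of_mem (by simpa using h)]
    simp [rho]
  · rw [indicator_of_notMem h, indicator_of_notMem (by simpa using h)]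

theorem lap_Ioi {u : ℝ} (hu : 0 ≤ u) : lap (Ioi u) = ENNReal.ofReal (exp (-u) / 2) := by
  rw [lap, withDensity_apply _ measurableSet_Ioi, ← integral_exp_neg_Ioi, ← integral_div,
    ofReal_integral_eq_lintegral_ofReal ((integrableOn_exp_neg_Ioi u).div_const 2)
      (Eventually.of_forall fun x => by positivity)]
  refine setLIntegral_congr_fun measurableSet_Ioi fun x hx => ?_
  have hx' : 0 < x := lt_of_le_of_lt hu hx
  simp only [rho]
  rw [abs_of_pos hx', neg_add, exp_add, exp_neg (log 2), exp_log (by norm_num), div_eq_mul_inv]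

theorem lap_zero : lap {0} = 0 :=
  withDensity_absolutelyContinuous _ _ (measure_singleton 0)

theorem lap_prob : IsProbabilityMeasure lap := by
  constructor
  have h1 : lap (Iio 0) = lap (Ioi 0) := by
    rw [← lap_neg measurableSet_Ioi]
    simp
  have h2 : lap (Iic 0) = lap (Iio 0) := by
    rw [← Iio_union_right, measure_union (by simp) (measurableSet_singleton 0), lap_zero, add_zero]
  rw [← Iic_union_Ioi (a := (0 : ℝ)), measure_union (Iic_disjoint_Ioi le_rfl) measurableSet_Ioi,
    h2, h1, lap_Ioi le_rfl, ← ENNReal.ofReal_add (by positivity) (by positivity), neg_zero, exp_zero]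
  norm_num

theorem lap_slc : SymLogConcave lap := by
  refine ⟨lap_prob, ⟨fun x => |x| + log 2, ?_, rfl⟩, fun A hA => lap_neg hA⟩
  have : ConvexOn ℝ univ fun x : ℝ => |x| := by
    exact convexOn_univ_norm (E := ℝ)
  exact this.add (convexOn_const _ convex_univ)

theorem shift_pos {s : ℝ} (hs : 0 ≤ s) {B C : Set ℝ} (hB : MeasurableSet B) (hC : MeasurableSet C)
    (h : ∀ x ∈ C, 0 < x → s < x ∧ x - s ∈ B) :
    lap (C ∩ Ioi 0) ≤ ENNReal.ofReal (exp (-s)) * lap (B ∩ Ioi 0) := by
  rw [lap_apply (hC.inter measurableSet_Ioi), lap_apply (hB.inter measurableSet_Ioi),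
    ← lintegral_add_right_eq_self _ s, ← lintegral_const_mul' _ _ ENNReal.ofReal_ne_top]
  refine lintegral_mono fun y => ?_
  by_cases hy : y + s ∈ C ∩ Ioi 0
  · obtain ⟨h1, h2⟩ := h _ hy.1 hy.2
    have hy0 : 0 < y := by linarith
    rw [indicator_of_mem hy, indicator_of_mem (show y ∈ B ∩ Ioi 0 from ⟨by simpa using h2, hy0⟩)]
    simp only [rho]
    rw [← ENNReal.ofReal_mul (exp_pos _).le, ← exp_add, abs_of_pos hy0, abs_of_pos (by linarith)]
    exact le_of_eq (by congr 2; ring)
  · rw [indicator_of_notMem hy]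
    exact zero_le

theorem push {s : ℝ} (hs : 0 ≤ s) {B C : Set ℝ} (hB : MeasurableSet B) (hC : MeasurableSet C)
    (h : ∀ x ∈ C, s < |x| ∧ x - s ∈ B ∧ x + s ∈ B) :
    lap C ≤ ENNReal.ofReal (exp (-s)) * lap B := by
  have h1 := shift_pos hs hB hC fun x hx h0 =>
    ⟨by simpa [abs_of_pos h0] using (h x hx).1, (h x hx).2.1⟩
  have h2 := shift_pos hs hB.neg hC.neg fun x hx h0 =>
    ⟨by simpa [abs_of_pos h0] using (h (-x) hx).1, by
      have := (h (-x) hx).2.2
      rw [Set.mem_neg]
      convert this using 1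
      ring⟩
  have e : ∀ D : Set ℝ, MeasurableSet D → lap (-D ∩ Ioi 0) = lap (D ∩ Iio 0) := fun D hD => by
    rw [← lap_neg (hD.inter measurableSet_Iio)]
    congr 1
    ext x
    simp
  rw [e _ hC, e _ hB] at h2
  calc lap C ≤ lap (C ∩ Ioi 0 ∪ C ∩ Iio 0) := by
        refine measure_mono fun x hx => ?_
        have : x ≠ 0 := fun h0 => by
          have := (h x hx).1
          rw [h0, abs_zero] at this
          linarith
        rcases this.lt_or_gt with h0 | h0
        · exact Or.inr ⟨hx, h0⟩
        · exact Or.inl ⟨hx, h0⟩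
    _ ≤ lap (C ∩ Ioi 0) + lap (C ∩ Iio 0) := measure_union_le _ _
    _ ≤ ENNReal.ofReal (exp (-s)) * (lap (B ∩ Ioi 0) + lap (B ∩ Iio 0)) := by
        rw [mul_add]
        exact add_le_add h1 h2
    _ ≤ _ := by
        gcongr
        rw [← measure_union _ (hB.inter measurableSet_Iio)]
        · exact measure_mono (union_subset inter_subset_left inter_subset_left)
        · rw [Set.disjoint_left]
          rintro x ⟨-, h1⟩ ⟨-, h2⟩
          exact lt_asymm (mem_Ioi.1 h1) (mem_Iio.1 h2)

theorem push_real {s : ℝ} (hs : 0 ≤ s) {B C : Set ℝ} (hB : MeasurableSet B) (hC : MeasurableSet C)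
    (h : ∀ x ∈ C, s < |x| ∧ x - s ∈ B ∧ x + s ∈ B) :
    lap.real C ≤ exp (-s) * lap.real B := by
  haveI := lap_prob
  have := ENNReal.toReal_mono (ENNReal.mul_ne_top ENNReal.ofReal_ne_top (measure_ne_top _ _))
    (push hs hB hC h)
  rwa [ENNReal.toReal_mul, ENNReal.toReal_ofReal (exp_pos _).le] at this

theorem exp_bound {r : ℝ} (h0 : 0 < r) (h1 : r < 1 / 100) :
    exp (-(99 / 100 * r)) ≤ 1 - 95 / 100 * r := by
  have h := add_one_le_exp (99 / 100 * r)
  rw [exp_neg, inv_le_comm₀ (exp_pos _) (by linarith)]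
  refine le_trans ?_ h
  rw [inv_le_iff_one_le_mul₀ (by linarith)]
  nlinarith

theorem cheeger {A : Set ℝ} (hA : MeasurableSet A) {a : ℝ} (ha : 0 < a) (ha2 : a ≤ 1 / 2)
    (hm : lap A = ENNReal.ofReal a) : ENNReal.ofReal (95 / 100 * a) ≤ bdry lap A := by
  haveI := lap_prob
  have hr : lap.real A = a := by rw [Measure.real, hm, ENNReal.toReal_ofReal ha.le]
  have key : ∃ δ > 0, ∀ r, 0 < r → r < δ →
      a + 95 / 100 * a * r ≤ lap.real (Metric.thickening r A) := by
    by_cases h0 : (0 : ℝ) ∈ closure A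
    · refine ⟨1 / 100, by norm_num, fun r hr0 hr1 => ?_⟩
      have hT : MeasurableSet (Metric.thickening r A) := Metric.isOpen_thickening.measurableSet
      have := push_real (s := 99 / 100 * r) (by positivity) hA.compl hT.compl fun x hx => by
        simp only [mem_compl_iff, Metric.mem_thickening_iff, not_exists, not_and, not_lt] at hx
        refine ⟨?_, fun h => ?_, fun h => ?_⟩
        · obtain ⟨z, hz, hd⟩ := Metric.mem_closure_iff.1 h0 (r / 100) (by positivity)
          have h1 := hx z hz
          have h2 := dist_triangle x 0 z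
          rw [Real.dist_eq x 0, sub_zero] at h2
          linarith
        · have := hx _ h
          rw [Real.dist_eq, sub_sub_cancel, abs_of_pos (by positivity)] at this
          linarith
        · have := hx _ h
          rw [dist_comm, Real.dist_eq, add_sub_cancel_left, abs_of_pos (by positivity)] at this
          linarith
      rw [probReal_compl_eq_one_sub hT, probReal_compl_eq_one_sub hA, hr] at this
      have h2 := exp_bound hr0 hr1
      have h3 : exp (-(99 / 100 * r)) * (1 - a) ≤ (1 - 95 / 100 * r) * (1 - a) :=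
        mul_le_mul_of_nonneg_right h2 (by linarith)
      nlinarith
    · rw [Metric.mem_closure_iff] at h0
      push Not at h0
      obtain ⟨δ, hδ, h0⟩ := h0
      refine ⟨min δ (1 / 100), by positivity, fun r hr0 hr1 => ?_⟩
      have hT : MeasurableSet (Metric.thickening r A) := Metric.isOpen_thickening.measurableSet
      have hr2 := lt_min_iff.1 hr1
      have := push_real (s := 99 / 100 * r) (by positivity) hT hA fun x hx => by
        refine ⟨?_, Metric.mem_thickening_iff.2 ⟨x, hx, ?_⟩,
          Metric.mem_thickening_iff.2 ⟨x, hx, ?_⟩⟩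
        · have := h0 x hx
          rw [Real.dist_eq, zero_sub, abs_neg] at this
          linarith
        · rw [dist_comm, Real.dist_eq, sub_sub_cancel, abs_of_pos (by positivity)]
          linarith
        · rw [Real.dist_eq, add_sub_cancel_left, abs_of_pos (by positivity)]
          linarith
      rw [hr] at this
      have h2 := exp_bound hr0 hr2.2
      have h4 : a ≤ lap.real (Metric.thickening r A) := by
        rw [← hr]
        exact measureReal_mono (Metric.self_subset_thickening hr0 A)
      have h3 : exp (-(99 / 100 * r)) * lap.real (Metric.thickening r A) ≤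
          (1 - 95 / 100 * r) * lap.real (Metric.thickening r A) :=
        mul_le_mul_of_nonneg_right h2 (by linarith)
      nlinarith
  obtain ⟨δ, hδ, key⟩ := key
  refine le_liminf_of_le (by isBoundedDefault) ?_
  filter_upwards [Ioo_mem_nhdsGT hδ] with r hr'
  rw [ENNReal.le_div_iff_mul_le (Or.inl (by simpa using hr'.1)) (Or.inl ENNReal.ofReal_ne_top),
    ← ENNReal.ofReal_mul (by positivity), hm, ← ofReal_measureReal,
    ← ENNReal.ofReal_sub _ ha.le]
  exact ENNReal.ofReal_le_ofReal (by linarith [key r hr'.1 hr'.2])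

theorem ratio_ge {a : ℝ} (ha : 0 < a) (ha2 : a ≤ 1 / 2) :
    ENNReal.ofReal (95 / 100) ≤ ratio lap a := by
  rw [ratio, ENNReal.le_div_iff_mul_le (Or.inl (by simpa using ha)) (Or.inl ENNReal.ofReal_ne_top),
    ← ENNReal.ofReal_mul (by positivity)]
  exact le_iInf fun A => le_iInf fun hA => le_iInf fun hm => cheeger hA ha ha2 hm

/-- The complement of a quadrant. -/
def ell (u : ℝ) : Set (WithLp 2 (ℝ × ℝ)) := {p | u < p.fst ∨ u < p.snd}

theorem ell_meas (u : ℝ) : MeasurableSet (ell u) := by
  have h1 : IsOpen {p : WithLp 2 (ℝ × ℝ) | u < p.fst} := isOpen_lt continuous_const (by fun_prop)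
  have h2 : IsOpen {p : WithLp 2 (ℝ × ℝ) | u < p.snd} := isOpen_lt continuous_const (by fun_prop)
  exact (h1.union h2).measurableSet

theorem prod_ell {u : ℝ} (hu : 0 ≤ u) :
    prodE lap lap (ell u) = ENNReal.ofReal (1 - (1 - exp (-u) / 2) ^ 2) := by
  haveI := lap_prob
  have h1 : WithLp.toLp 2 ⁻¹' ell u = (Iic u ×ˢ Iic u)ᶜ := by
    ext p
    simp only [ell, mem_preimage, mem_setOf_eq, mem_compl_iff, mem_prod, mem_Iic, not_and_or,
      not_le]
    rfl
  have h2 : lap (Iic u) = ENNReal.ofReal (1 - exp (-u) / 2) := by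
    rw [← compl_Ioi, prob_compl_eq_one_sub measurableSet_Ioi, lap_Ioi hu,
      ENNReal.ofReal_sub _ (by positivity), ENNReal.ofReal_one]
  have h3 : exp (-u) ≤ 1 := exp_le_one_iff.2 (by linarith)
  rw [prodE, Measure.map_apply (WithLp.measurable_toLp _ _) (ell_meas u), h1,
    prob_compl_eq_one_sub (measurableSet_Iic.prod measurableSet_Iic), Measure.prod_prod, h2,
    ← ENNReal.ofReal_mul (by linarith), ENNReal.ofReal_sub _ (by positivity), ENNReal.ofReal_one,
    sq]

theorem thick_ell (u r : ℝ) : Metric.thickening r (ell u) ⊆ ell (u - r) := by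
  intro p hp
  obtain ⟨z, hz, hd⟩ := Metric.mem_thickening_iff.1 hp
  have h1 := (WithLp.dist_fst_le (p := 2) p z).trans_lt hd
  have h2 := (WithLp.dist_snd_le (p := 2) p z).trans_lt hd
  rw [Real.dist_eq, abs_lt] at h1 h2
  rcases hz with hz | hz
  · left; linarith [h1.1]
  · right; linarith [h2.1]

theorem exp_log4 : exp (-log 4) = 1 / 4 := by
  rw [exp_neg, exp_log (by norm_num)]
  norm_num

theorem ratio_le : ratio (prodE lap lap) (15 / 64) ≤ ENNReal.ofReal (945 / 1000) := by
  have hl : 1 ≤ log 4 := by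
    rw [le_log_iff_exp_le (by norm_num)]
    linarith [exp_one_lt_d9]
  have hm : prodE lap lap (ell (log 4)) = ENNReal.ofReal (15 / 64) := by
    rw [prod_ell (by linarith), exp_log4]
    norm_num
  rw [ratio, ENNReal.div_le_iff (by simp) ENNReal.ofReal_ne_top,
    ← ENNReal.ofReal_mul (by norm_num)]
  have hp : profile (prodE lap lap) (15 / 64) ≤ bdry (prodE lap lap) (ell (log 4)) :=
    iInf_le_of_le (ell (log 4)) (iInf_le_of_le (ell_meas _) (iInf_le_of_le hm le_rfl))
  refine hp.trans ?_
  refine liminf_le_of_frequently_le' (Eventually.frequently ?_)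
  filter_upwards [Ioo_mem_nhdsGT (show (0 : ℝ) < 1 / 200 by norm_num)] with r hr
  obtain ⟨h0, h1⟩ := hr
  rw [ENNReal.div_le_iff (by simpa using h0) ENNReal.ofReal_ne_top,
    ← ENNReal.ofReal_mul (by norm_num), tsub_le_iff_left, hm,
    ← ENNReal.ofReal_add (by norm_num) (by positivity)]
  refine (measure_mono (thick_ell _ r)).trans ?_
  rw [prod_ell (by linarith)]
  refine ENNReal.ofReal_le_ofReal ?_
  have e : exp (-(log 4 - r)) = exp r / 4 := by
    rw [neg_sub, sub_eq_add_neg, exp_add, exp_log4]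
    ring
  have h2 : exp r ≤ 1 + 101 / 100 * r := by
    have h3 := add_one_le_exp (-r)
    rw [exp_neg, le_inv_comm₀ (by linarith) (exp_pos _)] at h3
    refine h3.trans ?_
    rw [inv_le_iff_one_le_mul₀ (by linarith)]
    nlinarith
  have h4 := add_one_le_exp r
  rw [e]
  nlinarith

/-- Q1 is false: for two copies of the two-sided exponential law and `a = 15/64` the left side is
strictly smaller than the infimum. -/
theorem result : ∃ μ₁ μ₂ : Measure ℝ, SymLogConcave μ₁ ∧ SymLogConcave μ₂ ∧
    ∃ a : ℝ, 0 < a ∧ a < 1 / 2 ∧ ratio (prodE μ₁ μ₂) a ^ 2 <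
      ⨅ (a₁ : ℝ) (a₂ : ℝ) (_ : a₁ ∈ Ioc (0 : ℝ) 1) (_ : a₂ ∈ Ioc (0 : ℝ) 1) (_ : a₁ * a₂ = a),
        ratio μ₁ a₁ ^ 2 + ratio μ₂ a₂ ^ 2 := by
  refine ⟨lap, lap, lap_slc, lap_slc, 15 / 64, by norm_num, by norm_num, ?_⟩
  calc ratio (prodE lap lap) (15 / 64) ^ 2 ≤ ENNReal.ofReal (945 / 1000) ^ 2 := by
        gcongr
        exact ratio_le
    _ < ENNReal.ofReal (95 / 100) ^ 2 := by
        rw [← ENNReal.ofReal_pow (by norm_num), ← ENNReal.ofReal_pow (by norm_num),
          ENNReal.ofReal_lt_ofReal_iff (by norm_num)]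
        norm_num
    _ ≤ _ := by
        refine le_iInf fun a₁ => le_iInf fun a₂ => le_iInf fun h₁ => le_iInf fun h₂ =>
          le_iInf fun h => ?_
        by_cases h3 : a₁ ≤ 1 / 2
        · refine le_trans ?_ le_self_add
          gcongr
          exact ratio_ge h₁.1 h3
        · refine le_trans ?_ le_add_self
          gcongr
          refine ratio_ge h₂.1 ?_
          by_contra h4
          nlinarith [not_le.1 h3, not_le.1 h4]

end Pool.Agent.Results.MP_662df3_gt.Counter
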